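import Pool.Agent.L5helper63.UP.Defs

/-!
# FIELD (for `MP_8d5faa_co`, helper63): the fields `GaloisField 5 (2 * r)`, `r` odd
-/

set_option autoImplicit false

namespace Pool.Agent.L5helper39.UPField

open Finset Pool.Agent.L5helper63.UP

theorem field_main : St_FIELD := by
  intro r hr
  haveI : Fact (Nat.Prime 5) := ⟨by norm_num⟩
  have hr0 : r ≠ 0 := by rintro rfl; simp at hr
  have h2r : 2 * r ≠ 0 := by omega
  let F := GaloisField 5 (2 * r)
  haveI : Fintype F := Fintype.ofFinite F
  haveI : DecidableEq F := Classical.decEq F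
  have hcardN : Nat.card F = 5 ^ (2 * r) := GaloisField.card 5 (2 * r) h2r
  have hcard : Fintype.card F = 5 ^ (2 * r) := by
    rw [← Nat.card_eq_fintype_card, hcardN]
  have hpow : ∀ x : F, (x ^ (5 ^ r)) ^ (5 ^ r) = x := by
    intro x
    rw [← pow_mul, ← pow_add, ← two_mul, ← hcard]
    exact FiniteField.pow_card x
  let SR : StarRing F :=
    { star := fun x => x ^ (5 ^ r)
      star_involutive := hpow
      star_mul := fun x y => by
        show (x * y) ^ (5 ^ r) = y ^ (5 ^ r) * x ^ (5 ^ r)
        rw [mul_pow, mul_comm]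
      star_add := fun x y => by
        show (x + y) ^ (5 ^ r) = x ^ (5 ^ r) + y ^ (5 ^ r)
        exact add_pow_char_pow x y 5 r }
  have h5 : (5 : F) = 0 := by
    have := CharP.cast_eq_zero F 5
    exact_mod_cast this
  have h2 : (2 : F) ≠ 0 := by
    intro h
    have : (1 : F) = 0 := by linear_combination h5 - 2 * h
    exact one_ne_zero this
  refine ⟨F, inferInstance, inferInstance, inferInstance, SR, ⟨fun x => rfl, ?_, h2, ?_⟩,
    inferInstance, ?_⟩
  · rw [hcard, mul_comm, pow_mul]
  · calc 2 ≤ 5 ^ 1 := by norm_num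
      _ ≤ 5 ^ r := Nat.pow_le_pow_right (by norm_num) (by omega)
  · have hchar : ringChar F ≠ 2 := by
      have : ringChar F = 5 := (ringChar.eq F 5)
      omega
    have hsq : IsSquare (2 : F) := by
      rw [FiniteField.isSquare_iff hchar h2, hcard]
      have h4 : 4 ∣ 5 ^ (2 * r) / 2 := by
        have h1 : 5 ^ (2 * r) % 8 = 1 := by
          rw [pow_mul, Nat.pow_mod]
          norm_num
        omega
      obtain ⟨c, hc⟩ := h4
      rw [hc, pow_mul]
      have h16 : (2 : F) ^ 4 = 1 := by linear_combination 3 * h5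
      rw [h16, one_pow]
    obtain ⟨s, hs⟩ := hsq
    have hs2 : s ^ 2 = 2 := by rw [hs]; ring
    have hs5 : s ^ 5 = -s := by
      linear_combination (s ^ 3 + 2 * s) * hs2 + s * h5
    have hs25 : s ^ 25 = s := by
      have : s ^ 25 = (s ^ 5) ^ 5 := by ring
      rw [this, hs5]
      have : (-s) ^ 5 = -(s ^ 5) := by ring
      rw [this, hs5, neg_neg]
    refine ⟨s, hs2, ?_⟩
    show s ^ (5 ^ r) = -s
    obtain ⟨k, rfl⟩ := hr
    have hk : ∀ k : ℕ, s ^ (25 ^ k) = s := by
      intro k
      induction k with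
      | zero => simp
      | succ k ih => rw [pow_succ, pow_mul, ih, hs25]
    have : (5 : ℕ) ^ (2 * k + 1) = 25 ^ k * 5 := by
      rw [pow_succ, pow_mul]; norm_num
    rw [this, pow_mul, hk, hs5]

end Pool.Agent.L5helper39.UPField
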